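import Pool.Agent.Y922.AP.Stm3

set_option autoImplicit false

namespace Pool.Agent.Y79.AQ

open DirichletCharacter Pool.Agent.Y922.AQ

lemma same {q d d' : ℕ} [NeZero q] [n1 : NeZero d] [n2 : NeZero d'] (hd : d ∣ q) (hd' : d' ∣ q) (e : d = d')
    (a : DirichletCharacter ℂ d) (b : DirichletCharacter ℂ d')
    (h : changeLevel hd a = changeLevel hd' b) (s : ℂ) :
    (d : ℂ) ^ (s / 2) * completedLFunction a s = (d' : ℂ) ^ (s / 2) * completedLFunction b s := by
  subst e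
  have hab : a = b := changeLevel_injective hd h
  subst hab
  rfl

lemma lfe1 {d : ℕ} [NeZero d] (ψ : DirichletCharacter ℂ d) (hψ : ψ.IsPrimitive) (s : ℂ) :
    (d : ℂ) ^ ((1 - s) / 2) * completedLFunction ψ (1 - s) =
      rootNumber ψ * ((d : ℂ) ^ (s / 2) * completedLFunction ψ⁻¹ s) := by
  rw [hψ.completedLFunction_one_sub]
  have h0 : (d : ℂ) ≠ 0 := Nat.cast_ne_zero.mpr (NeZero.ne d)
  have h1 : (d : ℂ) ^ ((1 - s) / 2) * (d : ℂ) ^ (s - 1 / 2) = (d : ℂ) ^ (s / 2) := by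
    rw [← Complex.cpow_add _ _ h0]
    congr 1
    ring
  rw [← h1]
  ring

theorem t_LFE : S_LFE := by
  intro q _ χ hχ
  haveI i1 : NeZero χ.conductor := ⟨χ.conductor_ne_zero⟩
  haveI i2 : NeZero χ⁻¹.conductor := ⟨χ⁻¹.conductor_ne_zero⟩
  refine ⟨rootNumber χ.primitiveCharacter, fun s => ?_⟩
  have h2 : (χ.conductor : ℂ) ^ (s / 2) * completedLFunction χ.primitiveCharacter⁻¹ s =
      (χ⁻¹.conductor : ℂ) ^ (s / 2) * completedLFunction χ⁻¹.primitiveCharacter s := by
    refine same (q := q) χ.conductor_dvd_level χ⁻¹.conductor_dvd_level ?_ _ _ ?_ s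
    · exact (conductor_inv χ).symm
    · rw [map_inv, changeLevel_primitiveCharacter, changeLevel_primitiveCharacter]
  have h3 := lfe1 χ.primitiveCharacter χ.primitiveCharacter_isPrimitive s
  rw [h2] at h3
  exact h3

end Pool.Agent.Y79.AQ
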